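import Pool.Agent.Helper63.XP.StA

/-!
# Project XP, module S3X
-/

set_option autoImplicit false

namespace Pool.Agent.Helper51.XP

open Pool.Agent.Helper63.XP Finset
open Pool.Agent.Helper63.XR (gen blk wt)

section
variable {P : Type} [Fintype P] [DecidableEq P] {k b : ℕ} {d m J Q : ℕ → ℕ} {B : ℕ → ℝ} {S : Type} [Fintype S]
  [DecidableEq S]

theorem mem_Al {g : LP P k b d m J Q B} {t : S → ℝ} {l : ℕ} {j : S × P} :
    j ∈ Al g t l ↔ t j.1 = 1 ∧ g.lev j.2 = l := by
  classical
  unfold Al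
  simp

theorem mem_Gs {g : LP P k b d m J Q B} {Bad : Finset (S × P)} {j u : S × P} :
    u ∈ Gs g Bad j ↔ (∃ c ∈ g.ch j.2, (j.1, c) = u) ∧ u ∉ Bad := by
  unfold Gs
  rw [Finset.mem_sdiff, Finset.mem_image]

end

theorem hS3X : StS3x := by
  intro hGnp P _ _ k b d m J Q B g S _ _ t p lam Bad l ψ hp hlam hd hl h1 h2 h3
  intro j hj hjF q hlq hqk u hu
  obtain ⟨hjt, hjl⟩ := mem_Al.1 hj
  have hwn : (d l : ℝ) ≤ lam * (Gs g Bad j).card := by
    by_contra hc
    apply hjF
    unfold Few
    rw [Finset.mem_filter]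
    exact ⟨hj, hc⟩
  have hd1 : (1 : ℝ) ≤ d l := by exact_mod_cast hd l
  have hn : (0 : ℝ) < (Gs g Bad j).card := by
    by_contra hc
    push Not at hc
    have := mul_le_mul_of_nonneg_left hc hlam.le
    linarith
  have hw : wt lam (d l) (Gs g Bad j).card = (d l : ℝ) / (lam * (Gs g Bad j).card) := by
    unfold wt
    rw [if_pos hwn]
  -- elements of `Gs`
  have hGs : ∀ u' ∈ Gs g Bad j, u'.1 = j.1 ∧ u'.2 ∈ g.ch j.2 ∧ u' ∈ Al g t (l + 1) ∧ u' ∉ Bad := by
    intro u' hu'
    obtain ⟨⟨c, hc, rfl⟩, hb⟩ := mem_Gs.1 hu'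
    refine ⟨rfl, hc, mem_Al.2 ⟨hjt, ?_⟩, hb⟩
    show g.lev c = l + 1
    rw [g.ch_lev _ c hc, hjl]
  set W : ℂ := ((wt lam (d l) (Gs g Bad j).card * (d l : ℝ) ^ (1 / p - 1) : ℝ) : ℂ) with hW
  have hpsi : ∀ q', l < q' → ∀ i, psiN g p lam Bad l ψ q' j i
      = W * ∑ u ∈ Gs g Bad j, star (g.σ u.2 j.2) * ψ q' u i := by
    intro q' hq' i
    unfold psiN
    rw [if_neg (by omega), if_pos hq']
  rcases Nat.eq_or_lt_of_le hlq with rfl | hlt
  · -- q = l
    have hu2 : u = j.2 := by
      rw [Nat.sub_self] at hu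
      exact Finset.mem_singleton.1 hu
    subst hu2
    have e1 : psiN g p lam Bad l ψ l j (j.1, j.2) = 1 := by
      unfold psiN
      rw [if_pos rfl, if_pos rfl]
    have e2 : ∑ c ∈ g.ch j.2, g.σ c j.2 * psiN g p lam Bad l ψ (l + 1) j (j.1, c)
        = W * (Gs g Bad j).card := by
      have e3 : ∀ c ∈ g.ch j.2, g.σ c j.2 * psiN g p lam Bad l ψ (l + 1) j (j.1, c)
          = W * ∑ u' ∈ Gs g Bad j, (if (j.1, c) = u' then (1 : ℂ) else 0) := by
        intro c _
        rw [hpsi (l + 1) (Nat.lt_succ_self l), mul_left_comm, Finset.mul_sum]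
        congr 1
        apply Finset.sum_congr rfl
        intro u' hu'
        rw [h2 u' (hGs u' hu').2.2.1]
        by_cases he : (j.1, c) = u'
        · simp only [if_pos he]
          have hc2 : u'.2 = c := by rw [← he]
          rw [hc2, mul_one]
          have h5 := Complex.mul_conj (g.σ c j.2)
          have h6 : star (g.σ c j.2) = (starRingEnd ℂ) (g.σ c j.2) := rfl
          rw [h6, h5, Complex.normSq_eq_norm_sq, g.uni]
          simp
        · simp only [if_neg he, mul_zero]
      rw [Finset.sum_congr rfl e3, ← Finset.mul_sum, Finset.sum_comm]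
      congr 1
      have e4 : ∀ u' ∈ Gs g Bad j,
          ∑ c ∈ g.ch j.2, (if (j.1, c) = u' then (1 : ℂ) else 0) = 1 := by
        intro u' hu'
        obtain ⟨⟨c, hc, rfl⟩, hb⟩ := mem_Gs.1 hu'
        rw [Finset.sum_eq_single c]
        · rw [if_pos rfl]
        · intro c' _ hne
          rw [if_neg]
          intro h
          exact hne (Prod.ext_iff.1 h).2
        · intro h
          exact absurd hc h
      rw [Finset.sum_congr rfl e4]
      simp
    rw [e1, e2, hW, hw, mul_one]
    have h7 : (d l : ℝ) ^ (1 / p) = (d l : ℝ) * (d l : ℝ) ^ (1 / p - 1) := by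
      rw [Real.rpow_sub_one (by linarith)]
      field_simp
    rw [h7]
    have h8 : lam * ((d l : ℝ) / (lam * (Gs g Bad j).card) * (d l : ℝ) ^ (1 / p - 1) * (Gs g Bad j).card)
        = (d l : ℝ) * (d l : ℝ) ^ (1 / p - 1) := by
      field_simp
    rw [← h8]
    push_cast
    ring
  · -- q > l
    obtain ⟨n, rfl⟩ := Nat.exists_eq_add_of_lt hlt
    have e1 : ∑ c ∈ g.ch u, g.σ c u * psiN g p lam Bad l ψ (l + n + 1 + 1) j (j.1, c)
        = W * ∑ u' ∈ Gs g Bad j, star (g.σ u'.2 j.2) *
            ∑ c ∈ g.ch u, g.σ c u * ψ (l + n + 1 + 1) u' (j.1, c) := by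
      have e0 : ∀ c ∈ g.ch u, g.σ c u * psiN g p lam Bad l ψ (l + n + 1 + 1) j (j.1, c)
          = ∑ u' ∈ Gs g Bad j, W * (star (g.σ u'.2 j.2) * (g.σ c u * ψ (l + n + 1 + 1) u' (j.1, c))) := by
        intro c _
        rw [hpsi (l + n + 1 + 1) (by omega), Finset.mul_sum, Finset.mul_sum]
        apply Finset.sum_congr rfl
        intro u' _
        ring
      rw [Finset.sum_congr rfl e0, Finset.sum_comm, Finset.mul_sum]
      apply Finset.sum_congr rfl
      intro u' _
      rw [Finset.mul_sum, Finset.mul_sum]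
    rw [e1, hpsi (l + n + 1) (by omega)]
    have key : ∀ u' ∈ Gs g Bad j, (lam : ℂ) * ∑ c ∈ g.ch u, g.σ c u * ψ (l + n + 1 + 1) u' (j.1, c)
        = (((d (l + n + 1) : ℝ) ^ (1 / p) : ℝ) : ℂ) * ψ (l + n + 1) u' (j.1, u) := by
      intro u' hu'
      obtain ⟨hu1, hu2, hu3, hu4⟩ := hGs u' hu'
      have hu0 : u ∈ gen g.ch j.2 (n + 1) := by
        have : l + n + 1 - l = n + 1 := by omega
        rwa [this] at hu
      by_cases hin : u ∈ gen g.ch u'.2 n
      · have := h3 u' hu3 hu4 (l + n + 1) (by omega) hqk u (by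
          have : l + n + 1 - (l + 1) = n := by omega
          rw [this]; exact hin)
        rw [hu1] at this
        exact this
      · have z1 : ψ (l + n + 1) u' (j.1, u) = 0 := by
          by_contra hne
          have := ((h1 u' hu3 (l + n + 1) (j.1, u)).2 hne).2.2.2
          have hm : l + n + 1 - (l + 1) = n := by omega
          rw [hm] at this
          exact hin this
        have z2 : ∀ c ∈ g.ch u, g.σ c u * ψ (l + n + 1 + 1) u' (j.1, c) = 0 := by
          intro c hc
          have z3 : ψ (l + n + 1 + 1) u' (j.1, c) = 0 := by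
            by_contra hne
            have h4 := ((h1 u' hu3 (l + n + 1 + 1) (j.1, c)).2 hne).2.2.2
            have hm : l + n + 1 + 1 - (l + 1) = n + 1 := by omega
            rw [hm] at h4
            have h5 : c ∈ (gen g.ch u'.2 n).biUnion g.ch := h4
            obtain ⟨u'', hu'', hc''⟩ := Finset.mem_biUnion.1 h5
            have h6 : u'' ∈ gen g.ch j.2 (n + 1) := by
              rw [(hGnp P k b d m J Q B g).1 j.2 n]
              exact Finset.mem_biUnion.2 ⟨u'.2, hu2, hu''⟩
            have hne' : u ≠ u'' := by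
              rintro rfl
              exact hin hu''
            have h7 := g.tree j.2 (n + 1) u u'' hu0 h6 hne'
            exact Finset.disjoint_left.1 h7 hc hc''
          rw [z3, mul_zero]
        rw [z1, Finset.sum_eq_zero z2]
        ring
    calc (lam : ℂ) * (W * ∑ u' ∈ Gs g Bad j, star (g.σ u'.2 j.2) *
            ∑ c ∈ g.ch u, g.σ c u * ψ (l + n + 1 + 1) u' (j.1, c))
        = W * ∑ u' ∈ Gs g Bad j, star (g.σ u'.2 j.2) *
            ((lam : ℂ) * ∑ c ∈ g.ch u, g.σ c u * ψ (l + n + 1 + 1) u' (j.1, c)) := by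
          rw [mul_left_comm, Finset.mul_sum]
          congr 1
          apply Finset.sum_congr rfl
          intro u' _
          ring
      _ = W * ∑ u' ∈ Gs g Bad j, star (g.σ u'.2 j.2) *
            ((((d (l + n + 1) : ℝ) ^ (1 / p) : ℝ) : ℂ) * ψ (l + n + 1) u' (j.1, u)) := by
          congr 1
          apply Finset.sum_congr rfl
          intro u' hu'
          rw [key u' hu']
      _ = _ := by
          rw [Finset.mul_sum, Finset.mul_sum, Finset.mul_sum]
          apply Finset.sum_congr rfl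
          intro u' _
          ring

end Pool.Agent.Helper51.XP
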